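import Pool.Agent.V11193.FJ.Fac

/-!
# Farrell–Jones groups: ascending series below a normal subgroup

`C` is any class of groups with the closure properties `ClosedE C`: it contains `ℤ` and is closed
under subgroups, finite products, free products, overgroups of finite index, directed colimits and
satisfies the extension criterion with virtually cyclic subgroups; moreover `C` contains the solvable
groups. All this is known for the class of the groups which satisfy the fibered Farrell–Jones conjecture
in A-theory with finite wreath products.

Let `R` be a normal subgroup of `G` such that `G / R` is in `C`. Suppose that `R` has an ascending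
(transfinite) series of normal subgroups of `G`: every normal subgroup `K` of `G` which is properly
contained in `R` is contained in a larger one `L ≤ R` such that `N = L / K` is a factor of one of the
following kinds, as a normal subgroup of `H = G / K`.

(a) `N` is solvable or locally finite.

(b) Every coset `N h` has an element whose conjugation action on each finite subset of `N` is realized
by an inner automorphism of a group in `C`; these groups need not be related for different finite
subsets or cosets. For instance: `N` is in `C` and all outer automorphisms of `N` have finite order.

(c) `N` is the graph product of subgroups in `C` over a graph of any size, and every coset of `N` of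
infinite order has an element which permutes these subgroups by an automorphism of the graph, such that
its powers which fix a vertex generate with the vertex group a group in `C`.

Then `G` is in `C`.

The theorem contains the theorems on single extensions (`R = L`, `K = 1`) with kernels of the kinds (a),
(b), (c), and the theorem on ascending series up to `G` with solvable and locally finite factors. The
point of the relative form is that nothing is assumed on `G / R` besides being in `C`, and
that the factors may be arbitrary groups in `C` with torsion outer automorphism group, so for instance
lattices of higher rank, for which no ascending series with solvable or locally finite factors exists.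
(No single extension theorem can be iterated here, because quotients of groups in `C` need not be in
`C` and there are infinitely many steps.)
-/

set_option autoImplicit false

namespace Pool.Agent.Results.MP_63c928_gt.RealizedSeries

open Pool.Agent.Y110.FJ (ClosedE Realized)
open Pool.Agent.H65FJ (GoodPerm IntGP)

/-- every finitely generated subgroup is finite -/
def LocallyFinite (G : Type) [Group G] : Prop :=
  ∀ s : Finset G, Finite (Subgroup.closure (s : Set G))

/-- Every coset of the normal subgroup `N` of `H` has an element whose conjugation action on each finite
subset of `N` is realized by an inner automorphism of a group in `C`. -/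
def Real (C : ∀ (G : Type) [Group G], Prop) (H : Type) [Group H] (N : Subgroup H) : Prop :=
  ∀ h : H, ∃ n ∈ N, ∀ E : Set H, E.Finite → E ⊆ N → Realized C (n * h) E

/-- The normal subgroup `N` of `H` is the graph product of subgroups `A v` in `C`, and every coset of `N`
of infinite order has an element `n h` which permutes the `A v` by an automorphism of the graph, such
that `⟨A v, (n h) ^ c⟩` is in `C` if `(n h) ^ c` fixes `v`, `c > 0`. -/
def Graph (C : ∀ (G : Type) [Group G], Prop) (H : Type) [Group H] (N : Subgroup H) : Prop :=
  ∃ (V : Type) (Λ : SimpleGraph V) (A : V → Subgroup H), IntGP Λ A N ∧ (∀ v, C (A v)) ∧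
    ∀ h : H, (∀ k : ℕ, 0 < k → h ^ k ∉ N) → ∃ n ∈ N, GoodPerm C Λ A (n * h)

/-- `N` is in `C` and every automorphism of `N` has a power which is inner. -/
def TorsionOuter (C : ∀ (G : Type) [Group G], Prop) (N : Type) [Group N] : Prop :=
  C N ∧ ∀ σ : MulAut N, ∃ (k : ℕ) (n : N), 0 < k ∧ σ ^ k = MulAut.conj n

/-- Every normal subgroup `K` of `G` which is properly contained in `R` is contained in a larger normal
subgroup `L ≤ R` of `G` such that `L / K` has the property `P`, as a normal subgroup of `G / K`. -/
def Series {G : Type} [Group G] (R : Subgroup G) (P : ∀ (H : Type) [Group H], Subgroup H → Prop) :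
    Prop :=
  ∀ (K : Subgroup G) [K.Normal], K < R → ∃ L : Subgroup G, L.Normal ∧ K < L ∧ L ≤ R ∧
    P (G ⧸ K) (L.map (QuotientGroup.mk' K))

theorem real_of_tor {C : ∀ (G : Type) [Group G], Prop} (hC : ClosedE C) {H : Type} [Group H]
    (N : Subgroup H) [N.Normal] (hN : TorsionOuter C N) : Real C H N := by
  intro g
  refine ⟨1, one_mem N, fun E _ hE => ?_⟩
  rw [one_mul]
  obtain ⟨k, n, hk, hσ⟩ := hN.2 (MulAut.conjNormal g)
  have hle : Subgroup.closure (E ∪ (fun x => g * x * g⁻¹) '' E) ≤ N := by
    rw [Subgroup.closure_le]
    refine Set.union_subset hE ?_
    rintro _ ⟨x, hx, rfl⟩
    exact ‹N.Normal›.conj_mem x (hE hx) g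
  refine Pool.Agent.H65FJ.realized_fin hC.base g E N hN.1 (Subgroup.inclusion hle)
    (Subgroup.inclusion_injective hle) (MulAut.conjNormal g) k hk n hσ ?_
  intro x y _ hy
  exact Subtype.ext hy

/-- Let `C` be a class of groups with the closure properties `ClosedE C` which contains the solvable
groups. Let `R` be a normal subgroup of `G` with `G / R` in `C`. Then `G` is in `C` in each of the
following cases. (1) `R` has an ascending series of normal subgroups of `G` whose factors are solvable,
or locally finite, or in `C` with torsion outer automorphism group. (2) `R` has an ascending series of
normal subgroups of `G` whose factors are solvable, or locally finite, or normal subgroups on which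
the conjugations are realized in `C` (`Real`), or graph products (`Graph`). -/
theorem result (C : ∀ (G : Type) [Group G], Prop) (hC : ClosedE C)
    (hS : ∀ (G : Type) [Group G], Group.IsSolvable G → C G)
    (G : Type) [Group G] (R : Subgroup G) [R.Normal] (hQ : C (G ⧸ R)) :
    (Series R (fun _ _ N => Group.IsSolvable N ∨ LocallyFinite N ∨ TorsionOuter C N) → C G) ∧
    (Series R (fun H _ N => Group.IsSolvable N ∨ LocallyFinite N ∨ Real C H N ∨ Graph C H N) →
      C G) := by
  have key : Series R (fun H _ N => Group.IsSolvable N ∨ LocallyFinite N ∨ Real C H N ∨
      Graph C H N) → C G := by
    intro h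
    refine Pool.Agent.V11193.FJ.mem_of_good hC R ?_ hQ
    refine Pool.Agent.V11193.FJ.good_series hC R (fun H _ N => Group.IsSolvable N ∨
      LocallyFinite N ∨ Real C H N ∨ Graph C H N) ?_ h
    intro H _ N hN h1
    rcases h1 with h1 | h1 | h1 | h1
    · exact Pool.Agent.V11193.FJ.good_solv hS N h1
    · exact Pool.Agent.V11193.FJ.good_lf hC N h1
    · exact Pool.Agent.V11193.FJ.good_real hC N h1
    · exact Pool.Agent.V11193.FJ.good_gp hC N h1
  refine ⟨fun h => key fun K _ hK => ?_, key⟩
  obtain ⟨L, hL, hKL, hLR, h1⟩ := h K hK
  refine ⟨L, hL, hKL, hLR, ?_⟩
  have : (L.map (QuotientGroup.mk' K)).Normal :=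
    Subgroup.Normal.map hL _ (QuotientGroup.mk'_surjective K)
  rcases h1 with h1 | h1 | h1
  · exact Or.inl h1
  · exact Or.inr (Or.inl h1)
  · exact Or.inr (Or.inr (Or.inl (real_of_tor hC _ h1)))

end Pool.Agent.Results.MP_63c928_gt.RealizedSeries
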